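import Pool.Agent.Helper68.QS.St1

/-!
Project QD (MP_d112a4_gt), straightening and transfer, module SFU: topological conjugacy preserves `Fu`.
-/

set_option autoImplicit false

open MeasureTheory Set Filter Topology Complex
open scoped ContDiff ComplexConjugate ENNReal

namespace Pool.Agent.Helper24.QS

open Pool.Agent.Helper68.QS Pool.Agent.Helper68.QC
open Pool.Agent.Helper61.QE (D Dx rf SU Fu FD Ab sy nuT muT syX syY Kap En Et)

/-- SFU. topological conjugacy preserves `Fu` -/
theorem pSFU (hSUB : Pool.Agent.Helper61.QE.StSUB) : Pool.Agent.Helper68.QS.StSFU := by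
  intro Γ _ s₀ s f hfD hf0 hFu hSU hInt
  obtain ⟨-, -, -, hden, hnorm, -, -, -, -, -⟩ := hSUB
  have hmob : ∀ A : SL, SU A → ∀ z ∈ D, mob A z ∈ D := by
    intro A hA z hz
    have hz1 : ‖z‖ < 1 := by simpa using hz
    have h0 := hden A hA z hz1.le
    have h1 := hnorm A hA z h0
    have h2 : 0 < ‖den A z‖ ^ 2 := by
      have := norm_pos_iff.2 h0
      positivity
    have h3 : 0 < 1 - ‖z‖ ^ 2 := by nlinarith [norm_nonneg z]
    have h4 : 0 < 1 - ‖mob A z‖ ^ 2 := by
      by_contra hc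
      push Not at hc
      nlinarith
    rw [mem_ball_zero_iff]
    nlinarith [norm_nonneg (mob A z)]
  have key : ∀ γ, ∀ z ∈ D, f (mob (s₀ γ) z) = mob (s γ) (f z) := by
    intro γ z hz
    have hz1 : ‖z‖ < 1 := by simpa using hz
    exact (hInt γ).2.1 z (hden _ (hFu.su γ) z hz1.le)
  have hmem : ∀ x, f x ∈ D ↔ x ∈ D := by
    intro x
    constructor
    · intro h
      rw [← hfD] at h
      obtain ⟨y, hy, hyx⟩ := h
      rwa [← f.injective hyx]
    · intro h
      rw [← hfD]
      exact mem_image_of_mem f h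
  refine ⟨hSU, ?_, ?_, ?_⟩
  · intro r hr
    have hK : IsClosed (f ⁻¹' Metric.closedBall (0 : ℂ) r) :=
      Metric.isClosed_closedBall.preimage f.continuous
    have hKD : f ⁻¹' Metric.closedBall (0 : ℂ) r ⊆ Metric.ball (0 : ℂ) 1 := by
      intro x hx
      apply (hmem x).1
      have h1 : ‖f x‖ ≤ r := by simpa using hx
      rw [mem_ball_zero_iff]
      linarith
    obtain ⟨r', hr', hsub⟩ := exists_pos_lt_subset_ball one_pos hK hKD
    refine (hFu.disc r' hr'.2).subset ?_
    intro γ hγ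
    have h1 : ‖mob (s γ) 0‖ ≤ r := hγ
    have h2 := key γ 0 (by simp)
    rw [hf0] at h2
    rw [← h2] at h1
    have h3 : mob (s₀ γ) 0 ∈ f ⁻¹' Metric.closedBall (0 : ℂ) r := by simpa using h1
    have h4 := hsub h3
    rw [mem_ball_zero_iff] at h4
    exact h4.le
  · intro γ hγ z hz heq
    rw [← hfD] at hz
    obtain ⟨y, hy, rfl⟩ := hz
    rw [← key γ y hy] at heq
    exact hFu.free γ hγ y hy (f.injective heq)
  · obtain ⟨r, hr, hcov⟩ := hFu.coc
    have hK : IsClosed (f '' Metric.closedBall (0 : ℂ) r) :=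
      ((isCompact_closedBall (0 : ℂ) r).image f.continuous).isClosed
    have hKD : f '' Metric.closedBall (0 : ℂ) r ⊆ Metric.ball (0 : ℂ) 1 := by
      rintro _ ⟨x, hx, rfl⟩
      apply (hmem x).2
      have h1 : ‖x‖ ≤ r := by simpa using hx
      rw [mem_ball_zero_iff]
      linarith
    obtain ⟨r', hr', hsub⟩ := exists_pos_lt_subset_ball one_pos hK hKD
    refine ⟨r', hr'.2, ?_⟩
    intro z hz
    rw [← hfD] at hz
    obtain ⟨y, hy, rfl⟩ := hz
    obtain ⟨γ, hγ⟩ := hcov y hy
    refine ⟨γ, ?_⟩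
    rw [← key γ y hy]
    have h3 : f (mob (s₀ γ) y) ∈ f '' Metric.closedBall (0 : ℂ) r :=
      mem_image_of_mem f (by simpa using hγ)
    have h4 := hsub h3
    rw [mem_ball_zero_iff] at h4
    exact h4.le

end Pool.Agent.Helper24.QS
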